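import Pool.Agent.Work.MP_327059_nt.AA.Asm
import Pool.Agent.Work.MP_327059_nt.AA.Sqrt
import Pool.Agent.Work.MP_327059_nt.AA.Count
import Pool.Agent.Work.MP_327059_nt.AA.FinA

/-!
# The conjecture of Gel'fond and Schneider in degree 2 for almost all quadratic fields

`l ≠ 0` is any logarithm of an algebraic number. There is a set `B` of squarefree integers, in
which no product of three or four distinct elements is a square, such that `l` and `exp (β l)` are
algebraically independent for every `β` of degree 2 which lies in no field `ℚ(√D)`, `D ∈ B`. The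
set `B` has at most `2 π(X) + 6 X ^ (5 / 6)` elements of absolute value at most `X`.
-/

set_option autoImplicit false

namespace Pool.Agent.Results.MP_327059_nt.AlmostAllFields

open Pool.Agent.Work.MP_327059_nt.AA

theorem result : ∀ l : ℂ, l ≠ 0 → IsAlgebraic ℚ (Complex.exp l) → ∃ B : Set ℤ,
    (∀ D ∈ B, Squarefree D ∧ D ≠ 1) ∧
    (∀ β : ℂ, (minpoly ℚ β).natDegree = 2 →
      (∀ D ∈ B, ∀ s : ℂ, s ^ 2 = D → β ∉ IntermediateField.adjoin ℚ {s}) →
      AlgebraicIndependent ℚ ![l, Complex.exp (β * l)]) ∧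
    (∀ a ∈ B, ∀ b ∈ B, ∀ c ∈ B, a ≠ b → a ≠ c → b ≠ c → ¬ IsSquare (a * b * c)) ∧
    (∀ a ∈ B, ∀ b ∈ B, ∀ c ∈ B, ∀ d ∈ B, a ≠ b → a ≠ c → a ≠ d → b ≠ c → b ≠ d → c ≠ d →
      ¬ IsSquare (a * b * c * d)) ∧
    ∀ X : ℕ, ((B ∩ Set.Icc (-X : ℤ) X).ncard : ℝ) ≤
      2 * Nat.primeCounting X + 6 * (X : ℝ) ^ (5 / 6 : ℝ) :=
  pr_FinA full_T23 pr_Pair pr_Sqrt pr_Count

end Pool.Agent.Results.MP_327059_nt.AlmostAllFields
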