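import Pool.Agent.Work.MP_327059_nt.LD.FinalI

/-!
# The conjecture of Gel'fond and Schneider in every degree for almost all integers

There is one set `E` of positive integers of logarithmic density `0` such that for all algebraic
numbers `b_1, …, b_m` with `1, b_1, …, b_m` linearly independent over `ℚ` the numbers
`log n, n ^ (b_1), …, n ^ (b_m)` are algebraically independent over `ℚ` for all but finitely many
positive integers `n` outside `E`. For `β` of degree `d = m + 1` and `b_j = β ^ j` these are the `d`
numbers of the conjecture.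
-/

set_option autoImplicit false

namespace Pool.Agent.Results.MP_327059_nt.AlmostAllIntegers

open Filter Topology

theorem result : ∃ E : Set ℕ,
    Tendsto (fun N : ℕ => (∑ n ∈ Finset.Icc 1 N, E.indicator (fun n => (1 : ℝ) / n) n) /
      Real.log N) atTop (𝓝 0) ∧
    ∀ (m : ℕ) (b : Fin m → ℂ), (∀ j, IsAlgebraic ℚ (b j)) →
      LinearIndependent ℚ (Fin.cons 1 b : Fin (m + 1) → ℂ) →
      {n : ℕ | 1 ≤ n ∧ n ∉ E ∧ ¬ AlgebraicIndependent ℚ
        (Fin.cons ((Real.log n : ℝ) : ℂ) (fun j => Complex.exp (b j * ((Real.log n : ℝ) : ℂ))) :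
          Fin (m + 1) → ℂ)}.Finite :=
  Pool.Agent.Work.MP_327059_nt.LD.oneSet

end Pool.Agent.Results.MP_327059_nt.AlmostAllIntegers
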