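import Pool.Agent.Work.MP_327059_nt.UB.Final

/-!
# The conjecture of Gel'fond and Schneider in degree 2 up to `2 ^ (n - 1)` lines

`V` is an `n`-dimensional `ℚ`-vector space of logarithms of algebraic numbers and `β` is an
irrational algebraic number. The non-zero logarithms `z` in `V` for which `z` and `exp (β z)` are
algebraically dependent are the non-zero elements of at most `2 ^ (n - 1)` lines and at most
`2 ^ (n - 2)` planes, any two of which meet in `0`. For quadratic `β` there are only lines, no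
three of which lie in a plane.
-/

set_option autoImplicit false

namespace Pool.Agent.Results.MP_327059_nt.ExceptionalLines

open Pool.Agent.Work.MP_327059_nt

theorem result : ∀ β : ℂ, IsAlgebraic ℚ β → (∀ q : ℚ, β ≠ q) →
    ∀ V : Submodule ℚ ℂ, FiniteDimensional ℚ V → (∀ z ∈ V, IsAlgebraic ℚ (Complex.exp z)) →
    ∃ L P : Finset (Submodule ℚ ℂ),
      L.card ≤ 2 ^ (Module.finrank ℚ V - 1) ∧ P.card ≤ 2 ^ (Module.finrank ℚ V - 2) ∧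
      (∀ W ∈ L, W ≤ V ∧ Module.finrank ℚ W = 1) ∧ (∀ W ∈ P, W ≤ V ∧ Module.finrank ℚ W = 2) ∧
      (∀ z ∈ V, z ≠ 0 → (¬ AlgebraicIndependent ℚ ![z, Complex.exp (β * z)] ↔
        ∃ W, (W ∈ L ∨ W ∈ P) ∧ z ∈ W)) ∧
      (∀ W₁ W₂, (W₁ ∈ L ∨ W₁ ∈ P) → (W₂ ∈ L ∨ W₂ ∈ P) → W₁ ≠ W₂ → W₁ ⊓ W₂ = ⊥) ∧
      ((minpoly ℚ β).natDegree = 2 → P = ∅ ∧
        ∀ W₁ ∈ L, ∀ W₂ ∈ L, ∀ W₃ ∈ L, W₁ ≠ W₂ → W₁ ≠ W₃ → W₂ ≠ W₃ → ¬ W₁ ≤ W₂ ⊔ W₃) :=
  UB.cFN

end Pool.Agent.Results.MP_327059_nt.ExceptionalLines
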