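import Pool.Agent.Work.MP_327059_nt.FR.Asm

/-!
# The conjecture of Gel'fond and Schneider in every degree, outside finitely many subspaces

`V` is a finite dimensional `ℚ`-vector space of logarithms of algebraic numbers, `b_1, …, b_m` are
algebraic numbers such that `1, b_1, …, b_m` are linearly independent over `ℚ`. The `z` in `V` for
which `z, exp (b_1 z), …, exp (b_m z)` are algebraically dependent lie in finitely many subspaces
of `V` of dimension at most `n₀`, where `n₀` depends only on `m`. For `β` of degree `d = m + 1` and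
`b_j = β ^ j` these are the `d` numbers of the conjecture of Gel'fond and Schneider.
-/

set_option autoImplicit false

namespace Pool.Agent.Results.MP_327059_nt.FinitelyManySubspaces

open Pool.Agent.Work.MP_327059_nt

theorem result : ∀ m : ℕ, ∃ n₀ : ℕ, ∀ b : Fin m → ℂ, (∀ j, IsAlgebraic ℚ (b j)) →
    LinearIndependent ℚ (Fin.cons 1 b : Fin (m + 1) → ℂ) →
    ∀ V : Submodule ℚ ℂ, FiniteDimensional ℚ V → (∀ z ∈ V, IsAlgebraic ℚ (Complex.exp z)) →
      ∃ T : Set (Submodule ℚ ℂ), T.Finite ∧ (∀ W ∈ T, W ≤ V ∧ Module.finrank ℚ W ≤ n₀) ∧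
        ∀ z ∈ V, ¬ AlgebraicIndependent ℚ
          (Fin.cons z (fun j => Complex.exp (b j * z)) : Fin (m + 1) → ℂ) → ∃ W ∈ T, z ∈ W :=
  FR.final FR.y_CovB

end Pool.Agent.Results.MP_327059_nt.FinitelyManySubspaces
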